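import Pool.Agent.Q2N.Stmts

/-!
# DIM: `dim (U W) ≥ dim U + dim W - 1`
-/

set_option autoImplicit false

open Module
open scoped Pointwise

namespace Pool.Agent.Q2N.H48

open Pool.Agent.UW Pool.Agent.Q2N

variable {F K : Type} [Field F] [Field K] [Algebra F K]

theorem v_smul (S : Dat F K) (p : S.X) {c : F} (hc : c ≠ 0) (x : K) :
    S.v p (c • x) = S.v p x := by
  rw [Algebra.smul_def, AddValuation.map_mul, S.v_const p c hc, zero_add]

/-- the elements of value at least `m` -/
def Gm (S : Dat F K) (p : S.X) (m : ℤ) : Submodule F K where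
  carrier := {x | (m : WithTop ℤ) ≤ S.v p x}
  add_mem' := fun {a b} ha hb => (le_min ha hb).trans ((S.v p).map_add a b)
  zero_mem' := by
    show (m : WithTop ℤ) ≤ S.v p 0
    rw [AddValuation.map_zero]
    exact le_top
  smul_mem' := by
    intro c x hx
    show (m : WithTop ℤ) ≤ S.v p (c • x)
    by_cases hc : c = 0
    · rw [hc, zero_smul, AddValuation.map_zero]
      exact le_top
    · rw [v_smul S p hc]
      exact hx

/-- the elements of value more than `m` -/
def Gs (S : Dat F K) (p : S.X) (m : ℤ) : Submodule F K where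
  carrier := {x | (m : WithTop ℤ) < S.v p x}
  add_mem' := fun {a b} ha hb => (lt_min ha hb).trans_le ((S.v p).map_add a b)
  zero_mem' := by
    show (m : WithTop ℤ) < S.v p 0
    rw [AddValuation.map_zero]
    exact WithTop.coe_lt_top m
  smul_mem' := by
    intro c x hx
    show (m : WithTop ℤ) < S.v p (c • x)
    by_cases hc : c = 0
    · rw [hc, zero_smul, AddValuation.map_zero]
      exact WithTop.coe_lt_top m
    · rw [v_smul S p hc]
      exact hx

/-- the first value of a subspace costs one dimension -/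
theorem jump (S : Dat F K) (p : S.X) {U : Submodule F K} [FiniteDimensional F U] {n : ℤ} {u0 : K}
    (hu0 : u0 ∈ U) (hv : S.v p u0 = n) (hn : ∀ u ∈ U, (n : WithTop ℤ) ≤ S.v p u) :
    finrank F U = finrank F (U ⊓ Gs S p n : Submodule F K) + 1 := by
  have h0 : u0 ≠ 0 := by
    rintro rfl
    rw [AddValuation.map_zero] at hv
    exact WithTop.coe_ne_top hv.symm
  have hsup : (U ⊓ Gs S p n) ⊔ Submodule.span F {u0} = U := by
    apply le_antisymm
    · refine sup_le inf_le_left ?_
      rw [Submodule.span_singleton_le_iff_mem]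
      exact hu0
    · intro u hu
      rcases lt_or_eq_of_le (hn u hu) with h | h
      · exact Submodule.mem_sup_left ⟨hu, h⟩
      · have hu' : u ≠ 0 := by
          rintro rfl
          rw [AddValuation.map_zero] at h
          exact WithTop.coe_ne_top h
        obtain ⟨c, hc⟩ := S.res p u u0 hu' h0 (by rw [hv, h])
        have e : u = (u - algebraMap F K c * u0) + c • u0 := by
          rw [Algebra.smul_def]
          ring
        rw [e]
        refine Submodule.add_mem_sup ⟨?_, ?_⟩ ?_
        · rw [← Algebra.smul_def]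
          exact U.sub_mem hu (U.smul_mem c hu0)
        · show (n : WithTop ℤ) < S.v p _
          rw [h]
          exact hc
        · exact Submodule.smul_mem _ _ (Submodule.mem_span_singleton_self u0)
  have hinf : (U ⊓ Gs S p n) ⊓ Submodule.span F {u0} = ⊥ := by
    rw [Submodule.eq_bot_iff]
    rintro x ⟨⟨-, hx⟩, hx'⟩
    obtain ⟨c, rfl⟩ := Submodule.mem_span_singleton.1 hx'
    by_cases hc : c = 0
    · rw [hc, zero_smul]
    · exfalso
      have h1 : (n : WithTop ℤ) < S.v p (c • u0) := hx
      rw [v_smul S p hc, hv] at h1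
      exact lt_irrefl _ h1
  have hf1 : FiniteDimensional F (U ⊓ Gs S p n : Submodule F K) :=
    Submodule.finiteDimensional_of_le inf_le_left
  have h1 := Submodule.finrank_sup_add_finrank_inf_eq (U ⊓ Gs S p n) (Submodule.span F {u0})
  rw [hsup, hinf, finrank_bot, finrank_span_singleton h0, add_zero] at h1
  exact h1

/-- a subspace of finite dimension has a smallest value -/
theorem least (S : Dat F K) (p : S.X) {U : Submodule F K} [FiniteDimensional F U] (hU : U ≠ ⊥) :
    ∃ n : ℤ, (∃ u ∈ U, S.v p u = n) ∧ ∀ u ∈ U, (n : WithTop ℤ) ≤ S.v p u := by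
  classical
  obtain ⟨s, hs⟩ : U.FG := Module.Finite.iff_fg.1 inferInstance
  have hb : ∃ m : ℤ, ∀ x ∈ s, (m : WithTop ℤ) ≤ S.v p x := by
    clear hs
    induction s using Finset.induction_on with
    | empty => exact ⟨0, fun x hx => absurd hx (Finset.notMem_empty x)⟩
    | insert a t _ ih =>
      obtain ⟨m, hm⟩ := ih
      rcases eq_or_ne (S.v p a) ⊤ with h | h
      · refine ⟨m, fun x hx => ?_⟩
        rcases Finset.mem_insert.1 hx with rfl | hx
        · rw [h]
          exact le_top
        · exact hm x hx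
      · obtain ⟨k, hk⟩ := WithTop.ne_top_iff_exists.1 h
        refine ⟨min m k, fun x hx => ?_⟩
        rcases Finset.mem_insert.1 hx with rfl | hx
        · rw [← hk]
          exact WithTop.coe_le_coe.2 (min_le_right _ _)
        · exact le_trans (WithTop.coe_le_coe.2 (min_le_left _ _)) (hm x hx)
  obtain ⟨m, hm⟩ := hb
  have hle : U ≤ Gm S p m := by
    rw [← hs, Submodule.span_le]
    exact fun x hx => hm x hx
  obtain ⟨u, hu, hu0⟩ := (Submodule.ne_bot_iff _).1 hU
  have hut : S.v p u ≠ ⊤ := fun h => hu0 ((AddValuation.top_iff _).1 h)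
  obtain ⟨k, hk⟩ := WithTop.ne_top_iff_exists.1 hut
  obtain ⟨n, ⟨w, hw, hwn⟩, hn⟩ := Int.exists_least_of_bdd
    (P := fun n : ℤ => ∃ u ∈ U, S.v p u = n)
    ⟨m, fun z ⟨x, hx, hxz⟩ => by
      have h1 : (m : WithTop ℤ) ≤ S.v p x := hle hx
      rw [hxz] at h1
      exact WithTop.coe_le_coe.1 h1⟩ ⟨k, u, hu, hk.symm⟩
  refine ⟨n, ⟨w, hw, hwn⟩, fun x hx => ?_⟩
  rcases eq_or_ne (S.v p x) ⊤ with h | h
  · rw [h]
    exact le_top
  · obtain ⟨z, hz⟩ := WithTop.ne_top_iff_exists.1 h
    rw [← hz]
    exact WithTop.coe_le_coe.2 (hn z ⟨x, hx, hz.symm⟩)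

/-- the dimension is the number of values -/
theorem values (S : Dat F K) (p : S.X) : ∀ (k : ℕ) (U : Submodule F K), FiniteDimensional F U →
    finrank F U = k → ∃ A : Finset ℤ, A.card = k ∧ ∀ n : ℤ, n ∈ A ↔ ∃ u ∈ U, S.v p u = n := by
  intro k
  induction k with
  | zero =>
    intro U hf hU
    have hbot : U = ⊥ := Submodule.finrank_eq_zero.1 hU
    refine ⟨∅, rfl, fun n => ?_⟩
    constructor
    · intro h
      exact absurd h (Finset.notMem_empty n)
    · rintro ⟨u, hu, h⟩
      rw [hbot, Submodule.mem_bot] at hu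
      rw [hu, AddValuation.map_zero] at h
      exact absurd h.symm WithTop.coe_ne_top
  | succ k ih =>
    intro U hf hU
    have hne : U ≠ ⊥ := by
      rintro rfl
      rw [finrank_bot] at hU
      exact absurd hU (Nat.succ_ne_zero k).symm
    obtain ⟨n, ⟨u0, hu0, hv⟩, hn⟩ := least S p hne
    have hj := jump S p hu0 hv hn
    have hf1 : FiniteDimensional F (U ⊓ Gs S p n : Submodule F K) :=
      Submodule.finiteDimensional_of_le inf_le_left
    obtain ⟨A, hA, hA'⟩ := ih (U ⊓ Gs S p n) hf1 (by omega)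
    have hnA : n ∉ A := by
      intro h
      obtain ⟨u, ⟨-, hu⟩, h1⟩ := (hA' n).1 h
      have hu' : (n : WithTop ℤ) < S.v p u := hu
      rw [h1] at hu'
      exact lt_irrefl _ hu'
    refine ⟨insert n A, by rw [Finset.card_insert_of_notMem hnA, hA], fun m => ?_⟩
    rw [Finset.mem_insert, hA' m]
    constructor
    · rintro (rfl | ⟨u, hu, h⟩)
      · exact ⟨u0, hu0, hv⟩
      · exact ⟨u, hu.1, h⟩
    · rintro ⟨u, hu, h⟩
      have h1 := hn u hu
      rw [h] at h1
      rcases lt_or_eq_of_le (WithTop.coe_le_coe.1 h1) with h2 | h2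
      · right
        refine ⟨u, ⟨hu, ?_⟩, h⟩
        show (n : WithTop ℤ) < S.v p u
        rw [h]
        exact WithTop.coe_lt_coe.2 h2
      · left
        exact h2.symm

theorem dim : DimStmt := by
  classical
  intro F K _ _ _ S U W hU hW hU0 hW0
  obtain ⟨p⟩ := S.ne
  have hUW : FiniteDimensional F (U * W : Submodule F K) := by
    have h1 : U.FG := Module.Finite.iff_fg.1 hU
    have h2 : W.FG := Module.Finite.iff_fg.1 hW
    exact Module.Finite.iff_fg.2 (h1.mul h2)
  obtain ⟨A, hA, hA'⟩ := values S p _ U hU rfl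
  obtain ⟨B, hB, hB'⟩ := values S p _ W hW rfl
  obtain ⟨C, hC, hC'⟩ := values S p _ (U * W) hUW rfl
  have hAn : A.Nonempty := by
    obtain ⟨n, hn, -⟩ := least S p hU0
    exact ⟨n, (hA' n).2 hn⟩
  have hBn : B.Nonempty := by
    obtain ⟨n, hn, -⟩ := least S p hW0
    exact ⟨n, (hB' n).2 hn⟩
  have hsub : A + B ⊆ C := by
    intro z hz
    obtain ⟨a, ha, b, hb, rfl⟩ := Finset.mem_add.1 hz
    obtain ⟨u, hu, hua⟩ := (hA' a).1 ha
    obtain ⟨w, hw, hwb⟩ := (hB' b).1 hb
    refine (hC' _).2 ⟨u * w, Submodule.mul_mem_mul hu hw, ?_⟩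
    rw [AddValuation.map_mul, hua, hwb]
    rfl
  have h1 := cauchy_davenport_add_of_linearOrder_isCancelAdd hAn hBn
  have h2 := Finset.card_le_card hsub
  rw [← hA, ← hB, ← hC]
  omega

end Pool.Agent.Q2N.H48
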